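import Mathlib

set_option autoImplicit false

/-!
# Populations with two error sizes are not extremal for the sum of sampled errors

Two items are drawn with replacement from a population with mean error `9/10` and error sizes in
`[0,1]`.  The population with nine items of error size `1`, nine items of error size `9/10` and one
item of error size `0` has `P(S ≤ 9/10) = 1/19`, and every population with at most two error sizes
has `P(S ≤ 9/10) ≤ 4/121 < 1/19`.  So the conjecture that some population with two error sizes, one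
of which is `0` or `1`, is always optimal is false.
-/

namespace Pool.Agent.Results.MP_c8004b_pr.ThreeSizesWin

open Finset

/-- The population with the items `0, …, N-1` and the error sizes `e i` belongs to the set `𝓔_m`:
it is nonempty, the error sizes lie in `[0,1]` and their mean is `m`. -/
def InE (m : ℝ) (N : ℕ) (e : Fin N → ℝ) : Prop :=
  1 ≤ N ∧ (∀ i, 0 ≤ e i ∧ e i ≤ 1) ∧ (∑ i, e i) / (N : ℝ) = m

/-- `F_e(c) = P(S ≤ c)` where `S` is the sum of the error sizes of `n` items drawn independently and
uniformly with replacement: the number of the `n`-tuples of items with sum of error sizes at most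
`c`, divided by `N ^ n`. -/
noncomputable def F (n : ℕ) (c : ℝ) (N : ℕ) (e : Fin N → ℝ) : ℝ :=
  (Nat.card {f : Fin n → Fin N // ∑ j, e (f j) ≤ c} : ℝ) / (N : ℝ) ^ n

/-- The conjecture of the question: for all `n ≥ 1`, `0 < m < 1` and `c < n m` some population in
`𝓔_m` with exactly two error sizes, one of which is `0` or `1`, maximises `F_e(c)` over `𝓔_m`. -/
def Conjecture : Prop :=
  ∀ (n : ℕ) (m c : ℝ), 1 ≤ n → 0 < m → m < 1 → c < n * m →
    ∃ (N : ℕ) (e : Fin N → ℝ), InE m N e ∧ (Set.range e).ncard = 2 ∧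
      ((0 : ℝ) ∈ Set.range e ∨ (1 : ℝ) ∈ Set.range e) ∧
      ∀ (N' : ℕ) (e' : Fin N' → ℝ), InE m N' e' → F n c N' e' ≤ F n c N e

/-- ten times the error sizes of the population with three error sizes -/
def w (i : Fin 19) : ℕ := if i.val < 9 then 10 else if i.val < 18 then 9 else 0

/-- the population with three error sizes -/
noncomputable def e₀ (i : Fin 19) : ℝ := (w i : ℝ) / 10

theorem e₀_mem : InE (9 / 10) 19 e₀ := by
  refine ⟨by norm_num, ?_, ?_⟩
  · intro i
    have h : w i ≤ 10 := by
      unfold w; split_ifs <;> norm_num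
    constructor
    · unfold e₀; positivity
    · unfold e₀
      rw [div_le_one (by norm_num)]
      exact_mod_cast h
  · have h : ∑ i, w i = 171 := by decide
    have h2 : ∑ i, e₀ i = (171 : ℝ) / 10 := by
      unfold e₀
      rw [← Finset.sum_div]
      congr 1
      exact_mod_cast h
    rw [h2]; norm_num

theorem F_e₀ : F 2 (9 / 10) 19 e₀ = 1 / 19 := by
  unfold F
  have h1 : Nat.card {f : Fin 2 → Fin 19 // ∑ j, e₀ (f j) ≤ 9 / 10} =
      Nat.card {p : Fin 19 × Fin 19 // w p.1 + w p.2 ≤ 9} := by
    refine Nat.card_congr ((finTwoArrowEquiv (Fin 19)).subtypeEquiv ?_)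
    intro f
    simp only [Fin.sum_univ_two, finTwoArrowEquiv, Equiv.coe_fn_mk]
    unfold e₀
    rw [← add_div, div_le_div_iff_of_pos_right (by norm_num)]
    norm_cast
  have h2 : Nat.card {p : Fin 19 × Fin 19 // w p.1 + w p.2 ≤ 9} = 19 := by
    rw [Nat.card_eq_fintype_card, Fintype.card_subtype]
    decide +kernel
  rw [h1, h2]; norm_num

/-- A population with mean `9/10` and at most two error sizes `x ≤ y` -/
theorem bound {N : ℕ} {e : Fin N → ℝ} (hE : InE (9 / 10) N e) {x y : ℝ} (hxy : x ≤ y)
    (h : ∀ i, e i = x ∨ e i = y) : F 2 (9 / 10) N e ≤ 4 / 121 := by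
  classical
  obtain ⟨hN, h01, hm⟩ := hE
  have hN0 : (0 : ℝ) < N := by exact_mod_cast hN
  have hsum : ∑ i, e i = 9 / 10 * N := by
    rw [div_eq_iff hN0.ne'] at hm; exact hm
  set A : Finset (Fin N) := univ.filter (fun i => e i ≤ 9 / 20) with hA
  -- the number of items with a small error size
  have hAcard : (11 : ℝ) * (#A : ℝ) ≤ 2 * N := by
    have h1 : ∑ i, e i ≤ ∑ i, (if e i ≤ 9 / 20 then (9 / 20 : ℝ) else 1) := by
      apply Finset.sum_le_sum
      intro i _
      split_ifs with hi
      · exact hi
      · exact (h01 i).2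
    have h2 : ∑ i : Fin N, (if e i ≤ 9 / 20 then (9 / 20 : ℝ) else 1) =
        N - 11 / 20 * (#A : ℝ) := by
      have h3 : ∀ i : Fin N, (if e i ≤ 9 / 20 then (9 / 20 : ℝ) else 1) =
          1 - (if e i ≤ 9 / 20 then (11 / 20 : ℝ) else 0) := by
        intro i; split_ifs <;> norm_num
      simp_rw [h3]
      rw [Finset.sum_sub_distrib, ← Finset.sum_filter]
      simp [hA]
      ring
    rw [hsum, h2] at h1
    linarith
  -- every favourable pair consists of such items
  have key : ∀ f : Fin 2 → Fin N, ∑ j, e (f j) ≤ 9 / 10 → ∀ j, f j ∈ A := by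
    intro f hf
    rw [Fin.sum_univ_two] at hf
    -- some item has error size at least 9/10
    have hy : ∀ i, ¬ e i ≤ 9 / 20 → e i = y := by
      intro i hi
      by_contra hne
      have hix : e i = x := (h i).resolve_right hne
      have hall : ∀ k, 9 / 20 < e k := by
        intro k
        rcases h k with hk | hk
        · rw [hk, ← hix]; push Not at hi; exact hi
        · rw [hk]; push Not at hi; rw [hix] at hi; linarith
      have := hall (f 0); have := hall (f 1); linarith
    have hbig : ∀ i, ¬ e i ≤ 9 / 20 → 9 / 10 < e i := by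
      intro i hi
      by_contra hle
      push Not at hle
      have hyi := hy i hi
      have hall : ∀ k, e k ≤ 9 / 10 := by
        intro k
        rcases h k with hk | hk
        · rw [hk]; rw [hyi] at hle; linarith
        · rw [hk, ← hyi]; exact hle
      have heq : ∀ k, e k = 9 / 10 := by
        by_contra hcon
        push Not at hcon
        obtain ⟨k, hk⟩ := hcon
        have hlt : ∑ i, e i < ∑ _i : Fin N, (9 / 10 : ℝ) :=
          Finset.sum_lt_sum (fun i _ => hall i) ⟨k, mem_univ _, lt_of_le_of_ne (hall k) hk⟩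
        rw [hsum] at hlt
        simp at hlt
        linarith
      rw [heq, heq] at hf
      norm_num at hf
    intro j
    rw [hA, mem_filter]
    refine ⟨mem_univ _, ?_⟩
    by_contra hj
    have hb := hbig _ hj
    fin_cases j
    · have := (h01 (f 1)).1
      simp at hb
      linarith
    · have := (h01 (f 0)).1
      simp at hb
      linarith
  have hcard : Nat.card {f : Fin 2 → Fin N // ∑ j, e (f j) ≤ 9 / 10} ≤ #A ^ 2 := by
    have h1 : Nat.card {f : Fin 2 → Fin N // ∑ j, e (f j) ≤ 9 / 10} ≤
        Nat.card (Fin 2 → A) := by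
      refine Nat.card_le_card_of_injective
        (fun f => fun j => (⟨f.1 j, key f.1 f.2 j⟩ : A)) ?_
      intro f g hfg
      apply Subtype.ext
      funext j
      have := congrFun hfg j
      simpa using this
    refine h1.trans (le_of_eq ?_)
    rw [Nat.card_eq_fintype_card, Fintype.card_fun, Fintype.card_coe, Fintype.card_fin]
  unfold F
  rw [div_le_iff₀ (by positivity)]
  have h1 : (Nat.card {f : Fin 2 → Fin N // ∑ j, e (f j) ≤ 9 / 10} : ℝ) ≤ (#A : ℝ) ^ 2 := by
    exact_mod_cast hcard
  have h2 : (0 : ℝ) ≤ #A := by positivity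
  nlinarith [hAcard, h1, h2, mul_self_nonneg ((11 : ℝ) * (#A : ℝ) - 2 * N)]

theorem bound' {N : ℕ} {e : Fin N → ℝ} (hE : InE (9 / 10) N e)
    (h : (Set.range e).ncard ≤ 2) : F 2 (9 / 10) N e ≤ 4 / 121 := by
  classical
  have hfin : (Set.range e).Finite := Set.finite_range e
  obtain ⟨x, y, hxy⟩ : ∃ x y : ℝ, ∀ i, e i = x ∨ e i = y := by
    have hN : 0 < N := hE.1
    rcases Nat.lt_or_ge (Set.range e).ncard 2 with hlt | hge
    · have h1 : (Set.range e).ncard ≤ 1 := by omega
      rw [Set.ncard_le_one hfin] at h1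
      refine ⟨e ⟨0, hN⟩, e ⟨0, hN⟩, fun i => Or.inl ?_⟩
      exact h1 _ ⟨i, rfl⟩ _ ⟨_, rfl⟩
    · have h2 : (Set.range e).ncard = 2 := le_antisymm h hge
      rw [Set.ncard_eq_two] at h2
      obtain ⟨x, y, _, hr⟩ := h2
      refine ⟨x, y, fun i => ?_⟩
      have : e i ∈ Set.range e := ⟨i, rfl⟩
      rw [hr] at this
      simpa using this
  rcases le_total x y with hle | hle
  · exact bound hE hle hxy
  · exact bound hE hle (fun i => (hxy i).symm)

/-- **Three error sizes can be strictly better than two.** For `n = 2` and `m = c = 9/10`: some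
population in `𝓔_m` has `F_e(c) = 1/19`, and every population in `𝓔_m` with at most two error sizes
(whatever they are) has `F_e(c) ≤ 4/121 < 1/19`. Hence the conjecture is false. -/
theorem result :
    (∃ e : Fin 19 → ℝ, InE (9 / 10) 19 e ∧ F 2 (9 / 10) 19 e = 1 / 19) ∧
    (∀ (N : ℕ) (e : Fin N → ℝ), InE (9 / 10) N e → (Set.range e).ncard ≤ 2 →
      F 2 (9 / 10) N e ≤ 4 / 121) ∧
    (4 / 121 : ℝ) < 1 / 19 ∧ ¬ Conjecture := by
  refine ⟨⟨e₀, e₀_mem, F_e₀⟩, fun N e hE h => bound' hE h, by norm_num, ?_⟩
  intro hC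
  obtain ⟨N, e, hE, h2, _, hmax⟩ := hC 2 (9 / 10) (9 / 10) (by norm_num) (by norm_num)
    (by norm_num) (by norm_num)
  have h1 := hmax 19 e₀ e₀_mem
  rw [F_e₀] at h1
  have h3 := bound' hE h2.le
  have : (1 / 19 : ℝ) ≤ 4 / 121 := h1.trans h3
  norm_num at this

end Pool.Agent.Results.MP_c8004b_pr.ThreeSizesWin
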